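import Pool.Agent.NGP.Stmts
import Pool.Agent.Helper87_PQP.BXA

/-!
# NGP, row BXI (MP_5f32e0_gt): box estimates with invariance (edited copy of the row BXA of PQP by
helper87)
-/

set_option autoImplicit false
set_option linter.unusedSectionVars false
set_option linter.unusedVariables false

open scoped InnerProductSpace Topology ContDiff Manifold
open MeasureTheory Filter Set

noncomputable section

namespace Pool.Agent.NGP.H77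

open Pool.Agent.Helper42_Paneitz Pool.Agent.Helper82_Vir Pool.Agent.FLX Pool.Agent.PQP
open Pool.Agent.PQP.H87 Pool.Agent.NGP

/-- **BXI** -/
theorem bxi (hXPN : Xpn0Stmt) (hSBQ : Sbq0Stmt) (hRED : RdiStmt) (_hFAV : FavStmt) : BxiStmt := by
  obtain ⟨c, C₀, hc, hX⟩ := hXPN
  refine ⟨c, C₀, hc, ?_⟩
  intro p T ρ hG a ha0 ha1
  obtain ⟨CX, l₀, hCX, hl0, hl1, hX⟩ := hX p T ρ hG
  obtain ⟨CS, hCS, hS⟩ := hSBQ p T ρ hG
  obtain ⟨τ₀, CR, hτ₀, hCR, hR⟩ := hRED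
  have hρ := hG.pos
  obtain ⟨A, hAdef⟩ : ∃ A : ℝ, A = a⁻¹ := ⟨_, rfl⟩
  have hA : 1 ≤ A := by rw [hAdef]; exact (one_le_inv₀ ha0).2 ha1.le
  have haA : a * A = 1 := by rw [hAdef]; exact mul_inv_cancel₀ ha0.ne'
  obtain ⟨T0, hT0⟩ : ∃ T0 : ℝ, T0 = CS * (5 * A ^ 4) := ⟨_, rfl⟩
  have hT0n : 0 ≤ T0 := by rw [hT0]; positivity
  -- the threshold
  obtain ⟨X₀, hX₀⟩ : ∃ X₀ : ℝ, X₀ = min (min (a / 2) (a * (1 - l₀))) (min (ρ / 2)
    (τ₀ / (T0 + 1))) := ⟨_, rfl⟩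
  have hX₀p : 0 < X₀ := by
    rw [hX₀]
    refine lt_min (lt_min (by positivity) (mul_pos ha0 (by linarith))) (lt_min ?_ ?_) <;>
      positivity
  have k1 : X₀ ≤ a / 2 := by rw [hX₀]; exact (min_le_left _ _).trans (min_le_left _ _)
  have k2 : X₀ ≤ a * (1 - l₀) := by rw [hX₀]; exact (min_le_left _ _).trans (min_le_right _ _)
  have k3 : X₀ ≤ ρ / 2 := by
    rw [hX₀]; exact (min_le_right _ _).trans (min_le_left _ _)
  have k4 : X₀ ≤ τ₀ / (T0 + 1) := by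
    rw [hX₀]; exact (min_le_right _ _).trans (min_le_right _ _)
  have hX₀1 : X₀ ≤ 1 := by linarith
  have hpow : X₀ ^ 24 ≤ X₀ := by
    have := pow_le_pow_of_le_one hX₀p.le hX₀1 (show 1 ≤ 24 by norm_num)
    rwa [pow_one] at this
  refine ⟨X₀ ^ 24, 6 * CX * A ^ 6 + CR * T0 ^ 2, by positivity, by linarith, by linarith,
    by positivity, ?_⟩
  intro q k B M s hCon hs hs0 hsk hks hBs hMs
  -- the variable `X`
  obtain ⟨X, hXdef⟩ : ∃ X : ℝ, X = s ^ (1 / 24 : ℝ) := ⟨_, rfl⟩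
  have hXp : 0 < X := by rw [hXdef]; exact Real.rpow_pos_of_pos hs _
  obtain ⟨e1, e2, e3, e4⟩ := root_props hs
  rw [← hXdef] at e1 e2 e3 e4
  have hXX : X ≤ X₀ := by
    have h1 : X ^ 24 ≤ X₀ ^ 24 := by rw [e1]; exact hs0
    exact (pow_le_pow_iff_left₀ hXp.le hX₀p.le (by norm_num)).1 h1
  have hX1 : X ≤ 1 := hXX.trans hX₀1
  have hk := hCon.one
  have hB0 := hCon.B0
  have hM0 := hCon.M0
  have hkX : k * X ≤ 1 := by
    rw [← e4] at hks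
    calc k * X ≤ X⁻¹ * X := mul_le_mul_of_nonneg_right hks hXp.le
      _ = 1 := inv_mul_cancel₀ hXp.ne'
  have hBX : B * X ≤ 1 := by
    rw [← e4] at hBs
    calc B * X ≤ X⁻¹ * X := mul_le_mul_of_nonneg_right hBs hXp.le
      _ = 1 := inv_mul_cancel₀ hXp.ne'
  have hMX : M * X ^ 49 ≤ k := by
    rw [← e4] at hMs
    calc M * X ^ 49 ≤ X⁻¹ * |GG p ρ q| * X ^ 49 := mul_le_mul_of_nonneg_right hMs (by positivity)
      _ = (X ^ 24) ^ 2 * |GG p ρ q| := by field_simp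
      _ = k := by rw [e1, hsk]
  -- the parameters
  have hσ : ∀ σ : ℝ, a * s ≤ σ → σ ≤ s / a → 0 < σ ∧ σ ≤ A * X ^ 24 ∧ σ ≤ 1 - l₀ ∧ σ ≤ 1 / 2 := by
    intro σ h1 h2
    have h3 : 0 < σ := lt_of_lt_of_le (mul_pos ha0 hs) h1
    have h4 : σ ≤ A * X ^ 24 := by rw [e1, hAdef]; rw [div_eq_inv_mul] at h2; exact h2
    have h5 : X ^ 24 ≤ X₀ := (pow_le_pow_left₀ hXp.le hXX 24).trans hpow
    have h6 : A * X ^ 24 ≤ A * X₀ := mul_le_mul_of_nonneg_left h5 (by linarith)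
    have h7 : A * X₀ ≤ A * (a * (1 - l₀)) := mul_le_mul_of_nonneg_left k2 (by linarith)
    have h8 : A * (a * (1 - l₀)) = 1 - l₀ := by
      rw [← mul_assoc, mul_comm A a, haA, one_mul]
    have h9 : A * X₀ ≤ A * (a / 2) := mul_le_mul_of_nonneg_left k1 (by linarith)
    have h10 : A * (a / 2) = 1 / 2 := by
      rw [← mul_div_assoc, mul_comm A a, haA]
    exact ⟨h3, h4, by linarith, by linarith⟩
  have hl : ∀ σ : ℝ, 0 < σ → σ ≤ 1 - l₀ → σ ≤ 1 / 2 → l₀ ≤ √(1 - σ ^ 2) ∧ √(1 - σ ^ 2) < 1 ∧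
      √(1 - (√(1 - σ ^ 2)) ^ 2) = σ := by
    intro σ h1 h2 h3
    have h4 : 0 ≤ 1 - σ ^ 2 := by nlinarith
    refine ⟨?_, ?_, ?_⟩
    · rw [Real.le_sqrt (by linarith) h4]
      nlinarith
    · rw [Real.sqrt_lt' one_pos]
      nlinarith [sq_pos_of_pos h1]
    · rw [Real.sq_sqrt h4]
      have : 1 - (1 - σ ^ 2) = σ ^ 2 := by ring
      rw [this, Real.sqrt_sq h1.le]
  have hd : ∀ v : E5, ⟪(p : E5), v⟫_ℝ = 0 → ‖v‖ ≤ s ^ (3 / 4 : ℝ) →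
      ‖wv p v - (p : E5)‖ ≤ X ^ 18 ∧ ‖wv p v - (p : E5)‖ ≤ ρ / 2 := by
    intro v h1 h2
    have h3 := norm_wv_sub h1
    rw [← e2] at h2
    have h4 : X ^ 18 ≤ X := by
      have := pow_le_pow_of_le_one hXp.le hX1 (show 1 ≤ 18 by norm_num)
      rwa [pow_one] at this
    exact ⟨h3.trans h2, by linarith⟩
  have hqc := hCon.cont
  obtain ⟨S, hSdef⟩ : ∃ S : Set E5, S = {b | ∃ (σ : ℝ) (v : E5), a * s ≤ σ ∧ σ ≤ s / a ∧
    ⟪(p : E5), v⟫_ℝ = 0 ∧ ‖v‖ ≤ s ^ (3 / 4 : ℝ) ∧ b = bv p σ v} := ⟨_, rfl⟩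
  have hS1 : ∀ b ∈ S, ‖b‖ < 1 := by
    intro b hb
    rw [hSdef] at hb
    obtain ⟨σ, v, h1, h2, h3, h4, rfl⟩ := hb
    obtain ⟨g1, g2, g3, g4⟩ := hσ σ h1 h2
    have h5 := (hl σ g1 g3 g4).2.1
    unfold bv
    rw [norm_smul, norm_wv h3, mul_one, Real.norm_of_nonneg (Real.sqrt_nonneg _)]
    exact h5
  have hSb : ∀ b ∈ S, SB (fun x => q (mob b x)) (T0 * X ^ 30) := by
    intro b hb
    rw [hSdef] at hb
    obtain ⟨σ, v, h1, h2, h3, h4, rfl⟩ := hb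
    obtain ⟨g1, g2, g3, g4⟩ := hσ σ h1 h2
    obtain ⟨f1, f2, f3⟩ := hl σ g1 g3 g4
    obtain ⟨d1, d2⟩ := hd v h3 h4
    have h5 := hS q k B M hCon (wS p v h3) (√(1 - σ ^ 2)) σ (‖wv p v - (p : E5)‖)
      (hl0.trans f1) f2 f3.symm rfl d2
    have h6 := ar3 hXp hX1 hA hk hkX hB0 hBX hM0 hMX g1 g2 (norm_nonneg _) d1
    intro x
    refine (h5 x).trans ?_
    calc CS * (k * (σ ^ 2 + ‖wv p v - (p : E5)‖ ^ 2) + B * (σ ^ 3 + ‖wv p v - (p : E5)‖ ^ 3) +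
          M * σ ^ (10 / 3 : ℝ)) ≤ CS * (5 * A ^ 4 * X ^ 30) := mul_le_mul_of_nonneg_left h6 hCS
      _ = T0 * X ^ 30 := by rw [hT0]; ring
  have hX30 : X ^ 30 ≤ X := by
    have := pow_le_pow_of_le_one hXp.le hX1 (show 1 ≤ 30 by norm_num)
    rwa [pow_one] at this
  have hτ1 : T0 * X ^ 30 ≤ τ₀ := by
    rw [le_div_iff₀ (by positivity)] at k4
    calc T0 * X ^ 30 ≤ T0 * X₀ := mul_le_mul_of_nonneg_left (hX30.trans hXX) hT0n
      _ ≤ X₀ * (T0 + 1) := by nlinarith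
      _ ≤ τ₀ := k4
  obtain ⟨β, hβc, hβ1, hβ2, hβ3⟩ := hR S q (T0 * X ^ 30) hS1 hqc (by positivity) hτ1 hSb
  refine ⟨β, ?_, ?_⟩
  · rw [hSdef] at hβc
    exact hβc
  intro σ v h1 h2 h3 h4
  obtain ⟨g1, g2, g3, g4⟩ := hσ σ h1 h2
  obtain ⟨f1, f2, f3⟩ := hl σ g1 g3 g4
  obtain ⟨d1, d2⟩ := hd v h3 h4
  have hbS : bv p σ v ∈ S := by rw [hSdef]; exact ⟨σ, v, h1, h2, h3, h4, rfl⟩
  have hb1 := hS1 _ hbS
  have hwb : bv p σ v = √(1 - σ ^ 2) • (wS p v h3 : E5) := rfl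
  have hl12 : 1 / 2 ≤ √(1 - σ ^ 2) := hl0.trans f1
  have hmobc : Continuous (mob (bv p σ v)) := by
    rw [continuous_iff_continuousAt]
    intro x
    have h1 := H54.mos_all.1.comp_continuous (f := fun x : S4 => (bv p σ v, x))
      (continuous_const.prodMk continuous_id) (fun x => hb1)
    exact h1.continuousAt
  refine ⟨fun h0 => ?_, fun P hP hpP hvP => ?_, ?_⟩
  · obtain ⟨w, hIE, -⟩ := hβ2 _ hbS h0
    exact ⟨w, hIE⟩
  · refine hβ3 P hP _ hbS ?_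
    unfold bv wv
    exact P.smul_mem _ (P.smul_mem _ (P.add_mem hpP hvP))
  -- the two components
  obtain ⟨j₁, j₂, a1, a2, a3, a4, a5, a6⟩ := hX q k B M hCon (wS p v h3) (√(1 - σ ^ 2)) σ
    (‖wv p v - (p : E5)‖) f1 f2 f3.symm rfl d2
  refine ⟨j₁, j₂, a1, a2, a3, a4, ?_, ?_⟩
  all_goals rw [← e3]
  · exact comp_le hqc hmobc (wv p v) (norm_wv h3).le (hβ1 _ hbS) hk hXp hX1 hCR.le a5
      (ar1 hXp hX1 hA hk hB0 hBX hM0 hMX g1 g2 (norm_nonneg _) d1) hCX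
  · intro e he1 he2
    have h5 := a6 e he1 he2
    rw [← sub_neg_eq_add] at h5 ⊢
    exact comp_le hqc hmobc e he2 (hβ1 _ hbS) hk hXp hX1 hCR.le h5
      (ar2 hXp hX1 hA hk hB0 hBX hM0 hMX g1 g2 (norm_nonneg _) d1) hCX

end Pool.Agent.NGP.H77
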